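import Pool.Agent.H15.HLS.Targets

/-!
# Row TRH of hls_modules: transport of holey squares
-/

namespace Pool.Agent.H86.HLS

open Pool.Agent.H51.Homog Pool.Agent.H22.HSQ Pool.Agent.H15.HLS

theorem pf_TRH : T_TRH := by
  intro W H _ _ h w s hW hH hA
  obtain ⟨A0, h0⟩ := hA
  obtain ⟨e1, -⟩ : ∃ e : W ≃ Fin w, True := ⟨Fintype.equivFinOfCardEq hW, trivial⟩
  obtain ⟨e2, -⟩ : ∃ e : H ≃ Fin s, True := ⟨Fintype.equivFinOfCardEq hH, trivial⟩
  obtain ⟨e, he⟩ : ∃ e : W ⊕ H ≃ Fin w ⊕ Fin s, e = Equiv.sumCongr e1 e2 := ⟨_, rfl⟩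
  have hR : ∀ x, (e x).isRight = x.isRight := by
    rw [he]
    rintro (x | x) <;> rfl
  have hRs : ∀ y, (e.symm y).isRight = y.isRight := by
    intro y
    rw [← hR (e.symm y), e.apply_symm_apply]
  refine ⟨fun r c => e.symm (A0 (e r) (e c)), ⟨⟨fun r => ?_, fun c => ?_⟩, fun a b => ?_,
    fun r c hrc => ?_⟩⟩
  · exact e.symm.bijective.comp ((h0.latin.1 (e r)).comp e.bijective)
  · exact e.symm.bijective.comp ((h0.latin.2 (e c)).comp e.bijective)
  · show (e.symm (A0 (e (Sum.inr a)) (e (Sum.inr b)))).isRight = true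
    rw [hRs, he]
    exact h0.hole (e2 a) (e2 b)
  · have hI : ∀ x y, InHole (e x) (e y) ↔ InHole x y := by
      intro x y
      unfold InHole
      rw [hR, hR]
    have h1 : HSet (fun r c => e.symm (A0 (e r) (e c))) r c =
        (Equiv.prodCongr e e).symm '' (HSet A0 (e r) (e c)) := by
      rw [Equiv.image_symm_eq_preimage]
      ext ⟨p, q⟩
      show (p ≠ r ∧ q ≠ c ∧ e.symm (A0 (e p) (e q)) = e.symm (A0 (e r) (e c)) ∧
        e.symm (A0 (e p) (e c)) = e.symm (A0 (e r) (e q)) ∧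
        ¬ InHole p q ∧ ¬ InHole p c ∧ ¬ InHole r q) ↔
        (e p ≠ e r ∧ e q ≠ e c ∧ A0 (e p) (e q) = A0 (e r) (e c) ∧
          A0 (e p) (e c) = A0 (e r) (e q) ∧
          ¬ InHole (e p) (e q) ∧ ¬ InHole (e p) (e c) ∧ ¬ InHole (e r) (e q))
      rw [e.symm.injective.eq_iff, e.symm.injective.eq_iff, e.injective.ne_iff,
        e.injective.ne_iff, hI, hI, hI]
    rw [h1, Set.ncard_image_of_injective _ (Equiv.prodCongr e e).symm.injective]
    exact h0.cnt (e r) (e c) fun h => hrc ((hI r c).1 h)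

end Pool.Agent.H86.HLS
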